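import Pool.Agent.MDP.Bags

/-! Move II: a family `col` of strongly connected two-colourable subsets of `A`, closed under
extension inside `A`, without a dense subfamily. A maximal sequence of bags can be coloured by pairs
of colours, with forbidden pairs at every bag. -/

open Classical

namespace Pool.Agent.BagMove

open Pool.Agent.Mader Pool.Agent.MDP

universe u

variable {V : Type u}

/-- Greedy colouring of a degenerate family with forbidden colours. -/
theorem greedy_list {α : Type u} {r : α → α → Prop} (hs : ∀ x y, r x y → r y x) {d m : ℕ}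
    {F : Finset α} (h : ∀ B ⊆ F, B.Nonempty → ∃ b ∈ B, deg r B b < d) {P : Finset ℕ}
    {Φ : α → Finset ℕ} (hP : m + d ≤ P.card) (hΦ : ∀ b ∈ F, (Φ b).card ≤ m) :
    ∀ n : ℕ, ∀ B ⊆ F, B.card = n →
      ∃ q : α → ℕ, (∀ b ∈ B, q b ∈ P ∧ q b ∉ Φ b) ∧
        ∀ b ∈ B, ∀ b' ∈ B, b ≠ b' → r b b' → q b ≠ q b' := by
  intro n
  induction n with
  | zero =>
    intro B _ hB
    rw [Finset.card_eq_zero] at hB
    subst hB
    exact ⟨fun _ => 0, by simp, by simp⟩
  | succ n ih =>
    intro B hBF hB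
    have hne : B.Nonempty := Finset.card_pos.1 (by omega)
    obtain ⟨b, hb, hdeg⟩ := h B hBF hne
    obtain ⟨q, hq1, hq2⟩ := ih (B.erase b) ((Finset.erase_subset _ _).trans hBF)
      (by rw [Finset.card_erase_of_mem hb]; omega)
    have hlt : (Φ b ∪ (B.filter fun u => r b u).image q).card < P.card := by
      have h3 := Finset.card_union_le (Φ b) ((B.filter fun u => r b u).image q)
      have h4 := hΦ b (hBF hb)
      have h5 : ((B.filter fun u => r b u).image q).card ≤ (B.filter fun u => r b u).card :=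
        Finset.card_image_le
      have h6 : (B.filter fun u => r b u).card < d := hdeg
      omega
    obtain ⟨c, hcP, hc⟩ := Finset.exists_mem_notMem_of_card_lt_card hlt
    rw [Finset.mem_union] at hc
    push Not at hc
    have hc' : ∀ b' ∈ B, r b b' → q b' ≠ c := by
      intro b' hb' hr heq
      exact hc.2 (Finset.mem_image.2 ⟨b', Finset.mem_filter.2 ⟨hb', hr⟩, heq⟩)
    refine ⟨Function.update q b c, fun x hx => ?_, fun x hx y hy hxy hr => ?_⟩
    · by_cases hxb : x = b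
      · subst hxb
        rw [Function.update_self]
        exact ⟨hcP, hc.1⟩
      · rw [Function.update_of_ne hxb]
        exact hq1 x (Finset.mem_erase.2 ⟨hxb, hx⟩)
    · by_cases hxb : x = b
      · subst hxb
        rw [Function.update_self, Function.update_of_ne hxy.symm]
        exact (hc' y hy hr).symm
      · by_cases hyb : y = b
        · subst hyb
          rw [Function.update_self, Function.update_of_ne hxb]
          exact hc' x hx (hs _ _ hr)
        · rw [Function.update_of_ne hxb, Function.update_of_ne hyb]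
          exact hq2 x (Finset.mem_erase.2 ⟨hxb, hx⟩) y (Finset.mem_erase.2 ⟨hyb, hy⟩) hxy hr

/-- A maximal sequence of disjoint members of `col`, each maximal outside the earlier ones. -/
theorem col_list {a : V → V → Prop} {A : Finset V} {col : Finset V → Prop}
    (hcol : ∀ X, col X → Conn a X ∧ TwoCol a X)
    (hup : ∀ X X', X ⊆ X' → X' ⊆ A → Conn a X' → TwoCol a X' → col X → col X') :
    ∀ n : ℕ, ∀ S ⊆ A, S.card = n →
    ∃ L : List (Finset V), (∀ b ∈ L, b ⊆ S ∧ col b) ∧
      L.Pairwise (fun b b' => Disjoint b b') ∧ (∀ X ⊆ S, col X → ∃ b ∈ L, ¬ Disjoint X b) ∧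
      ∀ L1 b L2, L = L1 ++ b :: L2 → ∀ X', b ⊆ X' → (∀ x ∈ X', x ∈ b ∨ ∃ b' ∈ L2, x ∈ b') →
        Conn a X' → TwoCol a X' → X' = b := by
  intro n
  induction n using Nat.strong_induction_on with
  | _ n IH =>
  intro S hSA hSn
  by_cases hS : ∃ X ⊆ S, col X
  swap
  · push Not at hS
    refine ⟨[], by simp, by simp, fun X hX hc => absurd hc (hS X hX), ?_⟩
    intro L1 b L2 h
    simp at h
  · have hex : ∃ X ∈ S.powerset.filter (fun X => col X),
        ∀ X' ∈ S.powerset.filter (fun X => col X), X'.card ≤ X.card := by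
      apply Finset.exists_max_image
      obtain ⟨X, hX, hc⟩ := hS
      exact ⟨X, Finset.mem_filter.2 ⟨Finset.mem_powerset.2 hX, hc⟩⟩
    obtain ⟨X, hX, hmax⟩ := hex
    rw [Finset.mem_filter, Finset.mem_powerset] at hX
    obtain ⟨hXS, hXcol⟩ := hX
    have hXc := (hcol X hXcol).1
    have hcard : (S \ X).card < n := by
      rw [← hSn]
      apply Finset.card_lt_card
      refine ⟨Finset.sdiff_subset, fun h => ?_⟩
      obtain ⟨x, hx⟩ := hXc.1
      have := h (hXS hx)
      simp [hx] at this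
    obtain ⟨L, h1, h2, h3, h4⟩ := IH _ hcard (S \ X) (Finset.sdiff_subset.trans hSA) rfl
    refine ⟨X :: L, ?_, ?_, ?_, ?_⟩
    · intro b hb
      rcases List.mem_cons.mp hb with rfl | hb
      · exact ⟨hXS, hXcol⟩
      · obtain ⟨h5, h6⟩ := h1 b hb
        exact ⟨h5.trans Finset.sdiff_subset, h6⟩
    · rw [List.pairwise_cons]
      refine ⟨fun b hb => ?_, h2⟩
      exact Finset.disjoint_of_subset_right (h1 b hb).1 Finset.disjoint_sdiff
    · intro Y hYS hY
      by_cases hd : Disjoint Y X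
      · obtain ⟨b, hb, hYb⟩ := h3 Y (fun y hy => Finset.mem_sdiff.2
          ⟨hYS hy, fun h => Finset.disjoint_left.1 hd hy h⟩) hY
        exact ⟨b, List.mem_cons_of_mem _ hb, hYb⟩
      · exact ⟨X, by simp, hd⟩
    · intro L1 b L2 hL X' hbX' hX' hc ht
      rcases L1 with _ | ⟨c, L1⟩
      · simp only [List.nil_append, List.cons.injEq] at hL
        obtain ⟨rfl, rfl⟩ := hL
        have hsub : X' ⊆ S := by
          intro x hx
          rcases hX' x hx with h | ⟨b', hb', h⟩
          · exact hXS h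
          · exact Finset.sdiff_subset ((h1 b' hb').1 h)
        have := hmax X' (by
          rw [Finset.mem_filter, Finset.mem_powerset]
          exact ⟨hsub, hup X X' hbX' (hsub.trans hSA) hc ht hXcol⟩)
        exact (Finset.eq_of_subset_of_card_le hbX' this).symm
      · simp only [List.cons_append, List.cons.injEq] at hL
        exact h4 L1 b L2 hL.2 X' hbX' hX' hc ht

/-- **Move II.** `col` is a family of strongly connected two-colourable subsets of `A`, closed under
extension inside `A`, and no nonempty family of disjoint members has minimum two-way degree at least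
`d`. Then there is a family `ℬ` of disjoint members which meets every member, and for every set `P`
of pair indices and every choice of at most `m` forbidden indices at every bag, `m + d ≤ |P|`, the
bags of `ℬ` can be coloured by pairs from `P`: every vertex gets one of the two colours `(q b, κ v)`
of its bag `b`, and all colour classes are acyclic. -/
theorem bag_move {a : V → V → Prop} (hirr : ∀ v, ¬ a v v) {A : Finset V} {col : Finset V → Prop}
    (hA : ∀ X, col X → X ⊆ A) (hcol : ∀ X, col X → Conn a X ∧ TwoCol a X)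
    (hup : ∀ X X', X ⊆ X' → X' ⊆ A → Conn a X' → TwoCol a X' → col X → col X') {d : ℕ}
    (hpoor : ¬ ∃ ℬ : Finset (Finset V), ℬ.Nonempty ∧ (∀ b ∈ ℬ, col b) ∧
      (∀ b ∈ ℬ, ∀ b' ∈ ℬ, b ≠ b' → Disjoint b b') ∧ ∀ b ∈ ℬ, d ≤ deg (Adj2 a) ℬ b) :
    ∃ ℬ : Finset (Finset V), (∀ b ∈ ℬ, col b) ∧
      (∀ b ∈ ℬ, ∀ b' ∈ ℬ, b ≠ b' → Disjoint b b') ∧ (∀ X, col X → ∃ b ∈ ℬ, ¬ Disjoint X b) ∧
      ∀ (m : ℕ) (P : Finset ℕ) (Φ : Finset V → Finset ℕ), m + d ≤ P.card →
        (∀ b ∈ ℬ, (Φ b).card ≤ m) →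
        ∃ (q : Finset V → ℕ) (κ : V → Bool), (∀ b ∈ ℬ, q b ∈ P ∧ q b ∉ Φ b) ∧
          ∀ i k, Acyc a (((ℬ.filter fun b => q b = i).biUnion id).filter fun v => κ v = k) := by
  obtain ⟨L, h1, h2, h3, h4⟩ := col_list hcol hup A.card A (Finset.Subset.refl _) rfl
  have hL : ∀ b ∈ L, Conn a b ∧ TwoCol a b := fun b hb => hcol b (h1 b hb).2
  have hdis : ∀ b ∈ L, ∀ b' ∈ L, b ≠ b' → Disjoint b b' := by
    intro b hb b' hb' hne
    rw [List.pairwise_iff_getElem] at h2
    obtain ⟨i, hi, rfl⟩ := List.getElem_of_mem hb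
    obtain ⟨j, hj, rfl⟩ := List.getElem_of_mem hb'
    rcases lt_trichotomy i j with hij | hij | hij
    · exact h2 i j hi hj hij
    · subst hij
      exact absurd rfl hne
    · exact (h2 j i hj hi hij).symm
  refine ⟨L.toFinset, fun b hb => (h1 b (List.mem_toFinset.1 hb)).2, fun b hb b' hb' =>
    hdis b (List.mem_toFinset.1 hb) b' (List.mem_toFinset.1 hb'), fun X hX => ?_, ?_⟩
  · obtain ⟨b, hb, h⟩ := h3 X (hA X hX) hX
    exact ⟨b, List.mem_toFinset.2 hb, h⟩
  · intro m P Φ hP hΦ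
    have hdeg : ∀ B ⊆ L.toFinset, B.Nonempty → ∃ b ∈ B, deg (Adj2 a) B b < d := by
      intro B hB hne
      by_contra hcon
      push Not at hcon
      refine hpoor ⟨B, hne, fun b hb => (h1 b (List.mem_toFinset.1 (hB hb))).2,
        fun b hb b' hb' => ?_, hcon⟩
      exact hdis b (List.mem_toFinset.1 (hB hb)) b' (List.mem_toFinset.1 (hB hb'))
    obtain ⟨q, hq1, hq2⟩ := greedy_list Adj2.symm hdeg hP hΦ _ L.toFinset
      (Finset.Subset.refl _) rfl
    have htwo : ∀ i, TwoCol a ((L.toFinset.filter fun b => q b = i).biUnion id) := by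
      intro i
      refine indep_twoCol hirr hL h2 h4 (fun b hb =>
        List.mem_toFinset.1 (Finset.mem_filter.1 hb).1) fun b hb b' hb' hadj => ?_
      rw [Finset.mem_filter] at hb hb'
      exact hq2 b hb.1 b' hb'.1 hadj.1 hadj (hb.2.trans hb'.2.symm)
    choose c hc using htwo
    refine ⟨q, fun v => if h : ∃ b ∈ L.toFinset, v ∈ b then c (q h.choose) v else false, hq1, ?_⟩
    intro i k
    refine (hc i k).mono ?_
    intro v hv
    rw [Finset.mem_filter] at hv ⊢
    refine ⟨hv.1, ?_⟩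
    obtain ⟨b, hb, hvb⟩ := Finset.mem_biUnion.1 hv.1
    rw [Finset.mem_filter] at hb
    have hex : ∃ b ∈ L.toFinset, v ∈ b := ⟨b, hb.1, hvb⟩
    have h5 : (if h : ∃ b ∈ L.toFinset, v ∈ b then c (q h.choose) v else false) = k := hv.2
    rw [dif_pos hex] at h5
    have h6 : hex.choose = b := by
      by_contra hne
      exact Finset.disjoint_left.1 (hdis _ (List.mem_toFinset.1 hex.choose_spec.1) b
        (List.mem_toFinset.1 hb.1) hne) hex.choose_spec.2 hvb
    rw [h6, hb.2] at h5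
    exact h5

/-- **Move II with a colouring of the vertices.** The colour of `v ∈ b` is `2 * q b` or
`2 * q b + 1`. -/
theorem bag_move_col {a : V → V → Prop} (hirr : ∀ v, ¬ a v v) {A : Finset V}
    {col : Finset V → Prop}
    (hA : ∀ X, col X → X ⊆ A) (hcol : ∀ X, col X → Conn a X ∧ TwoCol a X)
    (hup : ∀ X X', X ⊆ X' → X' ⊆ A → Conn a X' → TwoCol a X' → col X → col X') {d : ℕ}
    (hpoor : ¬ ∃ ℬ : Finset (Finset V), ℬ.Nonempty ∧ (∀ b ∈ ℬ, col b) ∧
      (∀ b ∈ ℬ, ∀ b' ∈ ℬ, b ≠ b' → Disjoint b b') ∧ ∀ b ∈ ℬ, d ≤ deg (Adj2 a) ℬ b) :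
    ∃ ℬ : Finset (Finset V), (∀ b ∈ ℬ, col b) ∧
      (∀ b ∈ ℬ, ∀ b' ∈ ℬ, b ≠ b' → Disjoint b b') ∧ (∀ X, col X → ∃ b ∈ ℬ, ¬ Disjoint X b) ∧
      ∀ (m : ℕ) (P : Finset ℕ) (Φ : Finset V → Finset ℕ), m + d ≤ P.card →
        (∀ b ∈ ℬ, (Φ b).card ≤ m) →
        ∃ c : V → ℕ, (∀ b ∈ ℬ, ∃ q ∈ P, q ∉ Φ b ∧ ∀ v ∈ b, c v / 2 = q) ∧
          ∀ i, Acyc a ((ℬ.biUnion id).filter fun v => c v = i) := by
  obtain ⟨ℬ, h1, h2, h3, h4⟩ := bag_move hirr hA hcol hup hpoor
  refine ⟨ℬ, h1, h2, h3, fun m P Φ hP hΦ => ?_⟩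
  obtain ⟨q, κ, hq, hac⟩ := h4 m P Φ hP hΦ
  have key : ∀ b ∈ ℬ, ∀ v ∈ b, ∀ h : ∃ b ∈ ℬ, v ∈ b, h.choose = b := by
    intro b hb v hv h
    by_contra hne
    exact Finset.disjoint_left.1 (h2 _ h.choose_spec.1 b hb hne) h.choose_spec.2 hv
  refine ⟨fun v => if h : ∃ b ∈ ℬ, v ∈ b then 2 * q h.choose + (if κ v then 1 else 0) else 0,
    fun b hb => ⟨q b, (hq b hb).1, (hq b hb).2, fun v hv => ?_⟩, fun i => ?_⟩
  · have hex : ∃ b ∈ ℬ, v ∈ b := ⟨b, hb, hv⟩
    show (if h : ∃ b ∈ ℬ, v ∈ b then 2 * q h.choose + (if κ v then 1 else 0) else 0) / 2 = q b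
    rw [dif_pos hex, key b hb v hv hex]
    split_ifs <;> omega
  · refine (hac (i / 2) (decide (i % 2 = 1))).mono ?_
    intro v hv
    rw [Finset.mem_filter] at hv
    obtain ⟨hv1, hv2⟩ := hv
    obtain ⟨b, hb, hvb⟩ := Finset.mem_biUnion.1 hv1
    have hex : ∃ b ∈ ℬ, v ∈ b := ⟨b, hb, hvb⟩
    change (if h : ∃ b ∈ ℬ, v ∈ b then 2 * q h.choose + (if κ v then 1 else 0) else 0) = i at hv2
    rw [dif_pos hex, key b hb v hvb hex] at hv2
    rw [Finset.mem_filter, Finset.mem_biUnion]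
    by_cases hκ : κ v = true
    · rw [if_pos hκ] at hv2
      refine ⟨⟨b, Finset.mem_filter.2 ⟨hb, by omega⟩, hvb⟩, ?_⟩
      rw [hκ]
      symm
      rw [decide_eq_true_iff]
      omega
    · rw [if_neg hκ] at hv2
      refine ⟨⟨b, Finset.mem_filter.2 ⟨hb, by omega⟩, hvb⟩, ?_⟩
      rw [Bool.not_eq_true] at hκ
      rw [hκ]
      symm
      rw [decide_eq_false_iff_not]
      omega

end Pool.Agent.BagMove
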